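import Pool.Agent.H84.ND.Targets3

set_option autoImplicit false

namespace Pool.Agent.H30.ND

open MvPolynomial SC Pool.Agent.H27.LV Pool.Agent.H84.SM Pool.Agent.H84.ND

lemma cr_eq_zero_exists {k : Type} [Field k] (s t : Fin 3 → k) (h : cr s t = 0) (ht : t ≠ 0) :
    ∃ c : k, s = c • t := by
  obtain ⟨j, hj⟩ := Function.ne_iff.mp ht
  simp only [Pi.zero_apply] at hj
  have h0 := congrFun h 0
  have h1 := congrFun h 1
  have h2 := congrFun h 2
  simp only [cr, Pi.zero_apply] at h0 h1 h2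
  have e1 : (0 : Fin 3) + 1 = 1 := rfl
  have e2 : (0 : Fin 3) + 2 = 2 := rfl
  have e3 : (1 : Fin 3) + 1 = 2 := rfl
  have e4 : (1 : Fin 3) + 2 = 0 := rfl
  have e5 : (2 : Fin 3) + 1 = 0 := rfl
  have e6 : (2 : Fin 3) + 2 = 1 := rfl
  simp only [e1, e2, e3, e4, e5, e6] at h0 h1 h2
  refine ⟨s j / t j, ?_⟩
  funext i
  rw [Pi.smul_apply, smul_eq_mul, div_mul_eq_mul_div, eq_div_iff hj]
  fin_cases j <;> fin_cases i <;> simp only [Fin.zero_eta, Fin.mk_one, Fin.reduceFinMk] at * <;>
    first | rfl | linear_combination h0 | linear_combination h1 | linear_combination h2 |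
      linear_combination -h0 | linear_combination -h1 | linear_combination -h2

lemma cr_zero_comm {k : Type} [Field k] (s t : Fin 3 → k) (h : cr t s = 0) : cr s t = 0 := by
  funext i
  have := congrFun h i
  simp only [cr, Pi.zero_apply] at this ⊢
  linear_combination -this

theorem pf_ALN (hSQF : T_SQF) (hFWN : T_FWN) (hBGC : T_BGC) (hNSB : T_NSB) (hMAN : T_MAN)
    (hCRF : T_CRF) : T_ALN := by
  classical
  intro k _ _ _ G d hd hG hnode
  have hsq : Squarefree G := hSQF k G d (by omega) hG hnode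
  by_cases hstr : Str G d
  swap
  · exact hNSB k G d (by omega) hG hsq hnode hstr
  have hfew := hFWN k G d (by omega) hG hsq hnode hstr
  obtain ⟨G1, G2, d1, d2, hGG, hird, hG2, hdd, hd2, hn1, hs1⟩ :=
    hBGC k G d (by omega) hG hsq hnode hfew
  let P : ℕ → Prop := fun n => ∃ T : Finset (Fin 3 → k), T.card = n ∧ (∀ s ∈ T, Sing G1 s) ∧
    ∀ s ∈ T, ∀ s' ∈ T, s ≠ s' → cr s s' ≠ 0
  have hP0 : P 0 := ⟨∅, by simp, by simp, by simp⟩
  have hbd : ∀ n, P n → n + 6 ≤ 3 * d := by
    rintro n ⟨T, rfl, h1, h2⟩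
    exact hfew T (fun s hs => hs1 s (h1 s hs)) h2
  have hm : P (Nat.findGreatest P (3 * d)) := Nat.findGreatest_spec (Nat.zero_le _) hP0
  obtain ⟨T, hTc, hT1, hT2⟩ := hm
  have hcov : ∀ s, Sing G1 s → ∃ s' ∈ T, ∃ c : k, s = c • s' := by
    intro s hs
    by_contra hcon
    push Not at hcon
    have hsT : s ∉ T := fun h => hcon s h 1 (by rw [one_smul])
    have hcr : ∀ s' ∈ T, cr s s' ≠ 0 := by
      intro s' hs' h
      obtain ⟨c, hc⟩ := cr_eq_zero_exists s s' h (hT1 s' hs').1
      exact hcon s' hs' c hc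
    have hP1 : P (T.card + 1) := by
      refine ⟨insert s T, Finset.card_insert_of_notMem hsT, ?_, ?_⟩
      · intro t ht
        rcases Finset.mem_insert.mp ht with h | h
        · rw [h]; exact hs
        · exact hT1 t h
      · intro t ht t' ht' hne
        rcases Finset.mem_insert.mp ht with h | h
        · rcases Finset.mem_insert.mp ht' with h' | h'
          · exact absurd (h.trans h'.symm) hne
          · rw [h]; exact hcr t' h'
        · rcases Finset.mem_insert.mp ht' with h' | h'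
          · rw [h']
            exact fun h0 => hcr t h (cr_zero_comm s t h0)
          · exact hT2 t h t' h' hne
    have h3 := hbd _ hP1
    have h4 : T.card + 1 ≤ Nat.findGreatest P (3 * d) :=
      Nat.le_findGreatest (by omega) hP1
    omega
  have hTb : T.card + 6 ≤ 3 * d := hbd T.card ⟨T, rfl, hT1, hT2⟩
  have hnod : Nodal G1 d1 := by
    refine ⟨hird, hn1, T, ?_, hcov⟩
    have h5 : T.card ≤ 3 * d1 + 3 := by omega
    have h6 : 140 ≤ d1 := by omega
    nlinarith
  obtain ⟨B, hB⟩ := hMAN k G1 d1 (by omega) hnod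
  refine ⟨B, ?_⟩
  intro K _ _ _ htr D hD x S hC
  have hC1 : Crv G1 d1 x S := by
    refine hCRF k K G1 G2 d1 d2 hird.hom hG2 x S ?_
    rw [← hGG, hdd]
    exact hC
  exact hB K htr D hD x S hC1

end Pool.Agent.H30.ND
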