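import Pool.Agent.H84.ND.Targets3
import Pool.Agent.H64.SC.Api

set_option autoImplicit false

namespace Pool.Agent.H30.ND

open MvPolynomial SC Pool.Agent.H27.LV Pool.Agent.H84.SM Pool.Agent.H84.ND

lemma ord_aeval_ge {k K : Type} [Field k] [Field K] [Algebra k K] (v : DV k K)
    (x : Fin 3 → K) (G : MvPolynomial (Fin 3) k) (d : ℕ) (hG : G.IsHomogeneous d)
    (h : aeval x G ≠ 0) : -((d : ℤ) * poleOrder v x) ≤ v.ord (aeval x G) := by
  classical
  have he : aeval x G = ∑ m ∈ G.support, algebraMap k K (coeff m G) *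
      ∏ i ∈ m.support, x i ^ m i := by
    rw [aeval_def, eval₂_eq]
  rw [he] at h ⊢
  refine v.ord_sum_ge _ _ ?_ h
  intro m hm hne
  have hc : algebraMap k K (coeff m G) ≠ 0 := left_ne_zero_of_mul hne
  have hp : ∏ i ∈ m.support, x i ^ m i ≠ 0 := right_ne_zero_of_mul hne
  have hi : ∀ i ∈ m.support, x i ^ m i ≠ 0 := Finset.prod_ne_zero_iff.mp hp
  rw [v.ord_mul' hc hp, v.ord_algebraMap, zero_add, v.ord_prod _ _ hi]
  have hd : ∑ i ∈ m.support, m i = d := by
    have h := hG (mem_support_iff.1 hm)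
    rw [Finsupp.weight_apply, Finsupp.sum] at h
    simpa using h
  have hb : ∀ i ∈ m.support, -((m i : ℤ) * poleOrder v x) ≤ v.ord (x i ^ m i) := by
    intro i _
    rw [v.ord_pow]
    have h1 : (-(v.ord (x i))).toNat ≤ poleOrder v x :=
      Finset.le_sup (f := fun i => (-(v.ord (x i))).toNat) (Finset.mem_univ i)
    have h2 : -(poleOrder v x : ℤ) ≤ v.ord (x i) := by omega
    have h3 := mul_le_mul_of_nonneg_left h2 (Int.natCast_nonneg (m i))
    linarith
  have hs := Finset.sum_le_sum hb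
  refine le_trans (le_of_eq ?_) hs
  rw [Finset.sum_neg_distrib, ← Finset.sum_mul, ← hd]
  push_cast
  rfl

theorem pf_CRF : T_CRF := by
  intro k K _ _ _ G1 G2 d1 d2 h1 h2 x S hC
  have hne := hC.ne
  rw [map_mul] at hne
  have hn1 : aeval x G1 ≠ 0 := left_ne_zero_of_mul hne
  have hn2 : aeval x G2 ≠ 0 := right_ne_zero_of_mul hne
  refine ⟨hC.one, hn1, fun v hv => ?_⟩
  have ho := hC.off v hv
  rw [map_mul, v.ord_mul' hn1 hn2] at ho
  have g1 := ord_aeval_ge v x G1 d1 h1 hn1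
  have g2 := ord_aeval_ge v x G2 d2 h2 hn2
  push_cast at ho
  have e : ((d1 : ℤ) + d2) * poleOrder v x = d1 * poleOrder v x + d2 * poleOrder v x := by ring
  rw [e] at ho
  omega

end Pool.Agent.H30.ND
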