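import Pool.Agent.H84.ND.Targets4
import Pool.Agent.H64.SC.Api

/-!
# MP_70ba79_ag, board `ndc_modules`: row GCO
-/

set_option autoImplicit false

namespace Pool.Agent.H30.ND.GCO

open MvPolynomial SC Pool.Agent.H27.LV Pool.Agent.H84.SM Pool.Agent.H84.ND

lemma smul_hom {k L : Type} [Field k] [Field L] [Algebra k L] (P : MvPolynomial (Fin 3) k)
    (e : ℕ) (hP : P.IsHomogeneous e) (c : L) (x : Fin 3 → L) :
    aeval (fun i => c * x i) P = c ^ e * aeval x P := by
  rw [aeval_def, aeval_def, eval₂_eq, eval₂_eq, Finset.mul_sum]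
  refine Finset.sum_congr rfl fun m hm => ?_
  have h1 : ∑ i ∈ m.support, m i = e := by
    have h := hP (mem_support_iff.1 hm)
    rw [Finsupp.weight_apply, Finsupp.sum] at h
    simpa using h
  rw [← h1, ← Finset.prod_pow_eq_pow_sum]
  have h2 : ∏ i ∈ m.support, (c * x i) ^ m i = (∏ i ∈ m.support, c ^ m i) *
      ∏ i ∈ m.support, x i ^ m i := by
    rw [← Finset.prod_mul_distrib]
    exact Finset.prod_congr rfl fun i _ => mul_pow _ _ _
  rw [h2]
  ring

/-- the point in the coordinates in which `x j0 = 1` -/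
lemma crm {k K : Type} [Field k] [Field K] [Algebra k K] (G : MvPolynomial (Fin 3) k) (d m : ℕ)
    (hG : G.IsHomogeneous d) (x : Fin 3 → K) (S : Finset (DV k K)) (hx : aeval x G ≠ 0)
    (hS : ∀ v : DV k K, v ∉ S → ∃ j, x j ≠ 0 ∧ (∀ i, x i ≠ 0 → v.ord (x j) ≤ v.ord (x i)) ∧
      (v.ord (aeval x G) = d * v.ord (x j) ∨ d * v.ord (x j) + m ≤ v.ord (aeval x G)))
    (j0 : Fin 3) (hj0 : x j0 ≠ 0) : Crm G d m (fun i => (x j0)⁻¹ * x i) S := by
  have hinv : (x j0)⁻¹ ≠ 0 := inv_ne_zero hj0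
  refine ⟨⟨j0, inv_mul_cancel₀ hj0⟩, ?_, ?_⟩
  · rw [smul_hom G d hG]
    exact mul_ne_zero (pow_ne_zero _ hinv) hx
  · intro v hv
    obtain ⟨j, hj, hmin, hord⟩ := hS v hv
    have hp : (poleOrder v (fun i => (x j0)⁻¹ * x i) : ℤ) = v.ord (x j0) - v.ord (x j) := by
      have hle : v.ord (x j) ≤ v.ord (x j0) := hmin j0 hj0
      apply le_antisymm
      · obtain ⟨p, hp⟩ := Int.eq_ofNat_of_zero_le (sub_nonneg.2 hle)
        rw [hp]
        have : poleOrder v (fun i => (x j0)⁻¹ * x i) ≤ p := by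
          refine Finset.sup_le fun i _ => ?_
          change (-(v.ord ((x j0)⁻¹ * x i))).toNat ≤ p
          by_cases hi : x i = 0
          · rw [hi, mul_zero, v.ord_zero]
            simp
          · rw [DV.ord_mul' v hinv hi, DV.ord_inv]
            have := hmin i hi
            omega
        exact_mod_cast this
      · have h1 : (-(v.ord ((x j0)⁻¹ * x j))).toNat ≤
            poleOrder v (fun i => (x j0)⁻¹ * x i) :=
          Finset.le_sup (f := fun i => (-(v.ord ((x j0)⁻¹ * x i))).toNat) (Finset.mem_univ j)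
        rw [DV.ord_mul' v hinv hj, DV.ord_inv] at h1
        omega
    rw [smul_hom G d hG, DV.ord_mul' v (pow_ne_zero _ hinv) hx, DV.ord_pow, DV.ord_inv, hp]
    rcases hord with h | h
    · left
      rw [h]
      ring
    · right
      linarith

end Pool.Agent.H30.ND.GCO

namespace Pool.Agent.H30.ND

open MvPolynomial SC Pool.Agent.H27.LV Pool.Agent.H84.SM Pool.Agent.H84.ND

theorem pf_GCO (hIMF : Pool.Agent.H84.SM.T_IMF) : T_GCO := by
  intro k _ _ _ G d hd hG hsf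
  obtain ⟨B, m, N, Ψ, hΨ0, hΨN, hB⟩ := hsf
  refine ⟨max (2 * B + 1) (N + 1), m, N, Ψ, hΨ0, hΨN, ?_⟩
  intro K _ _ _ htr D hD x S hx hS
  have hB1 : ((2 * B + 1 : ℕ) : ℤ) ≤ ((max (2 * B + 1) (N + 1) : ℕ) : ℤ) := by
    exact_mod_cast le_max_left _ _
  have hB2 : ((N + 1 : ℕ) : ℤ) ≤ ((max (2 * B + 1) (N + 1) : ℕ) : ℤ) := by
    exact_mod_cast le_max_right _ _
  generalize ((max (2 * B + 1) (N + 1) : ℕ) : ℤ) = B' at hB1 hB2 ⊢
  push_cast at hB1 hB2
  have hfun : ∀ j0, (fun i => x i / x j0) = fun i => (x j0)⁻¹ * x i := by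
    intro j0
    funext i
    rw [div_eq_mul_inv, mul_comm]
  -- the part about the degree of the map
  have hb : aeval x Ψ ≠ 0 → (∃ i j, x j ≠ 0 ∧ x i / x j ∉ Set.range (algebraMap k K)) →
      ∀ j0, x j0 ≠ 0 → 1 ≤ canDeg D + (S.card : ℤ) ∧
        (deg k (fun i => (x j0)⁻¹ * x i) : ℤ) ≤ B * (canDeg D + S.card) := by
    intro hΨ hex j0 hj0
    refine hB K htr D hD (fun i => (x j0)⁻¹ * x i) S (GCO.crm G d m hG x S hx hS j0 hj0) ?_ ?_
    · rw [GCO.smul_hom Ψ N hΨN]
      exact mul_ne_zero (pow_ne_zero _ (inv_ne_zero hj0)) hΨ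
    · by_contra hc
      push Not at hc
      obtain ⟨i, j, hj, hij⟩ := hex
      obtain ⟨a, ha⟩ := hc i
      obtain ⟨b, hb⟩ := hc j
      apply hij
      refine ⟨a / b, ?_⟩
      rw [map_div₀, ha, hb]
      exact mul_div_mul_left _ _ (inv_ne_zero hj0)
  refine ⟨?_, ?_⟩
  · have h0 : ∃ j, x j ≠ 0 := by
      by_contra h
      push Not at h
      apply hx
      have h1 : x = fun i => (0 : K) * x i := by
        funext i
        rw [h i, mul_zero]
      rw [h1, GCO.smul_hom G d hG, zero_pow (by omega), zero_mul]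
    obtain ⟨j0, hj0⟩ := h0
    have hM : (1 : ℤ) ≤ max 1 (canDeg D + S.card) := le_max_left _ _
    have hM' : canDeg D + (S.card : ℤ) ≤ max 1 (canDeg D + S.card) := le_max_right _ _
    by_cases hΨ : aeval x Ψ = 0
    · refine ⟨N, Ψ, ?_, hΨ0, hΨN, hΨ⟩
      nlinarith
    by_cases hex : ∃ i j, x j ≠ 0 ∧ x i / x j ∉ Set.range (algebraMap k K)
    · obtain ⟨h1, h2⟩ := hb hΨ hex j0 hj0
      obtain ⟨e, Φ, he, hΦ0, hΦe, hΦ⟩ := hIMF k K htr (fun i => (x j0)⁻¹ * x i)
        ⟨j0, inv_mul_cancel₀ hj0⟩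
      refine ⟨e, Φ, ?_, hΦ0, hΦe, ?_⟩
      · have he' : (e : ℤ) ≤ 2 * (deg k (fun i => (x j0)⁻¹ * x i) : ℤ) + 1 := by
          exact_mod_cast he
        nlinarith
      · rw [GCO.smul_hom Φ e hΦe] at hΦ
        exact (mul_eq_zero.1 hΦ).resolve_left (pow_ne_zero _ (inv_ne_zero hj0))
    · push Not at hex
      obtain ⟨c, hc⟩ := hex (j0 + 1) j0 hj0
      have hne : j0 + 1 ≠ j0 := by
        fin_cases j0 <;> decide
      refine ⟨1, X (j0 + 1) - C c * X j0, ?_, ?_, ?_, ?_⟩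
      · push_cast
        nlinarith
      · intro h
        have h3 := congrArg (eval (fun i => if i = j0 + 1 then (1 : k) else 0)) h
        simp only [map_sub, map_mul, eval_X, eval_C, if_true, if_neg hne.symm, mul_zero, sub_zero,
          map_zero] at h3
        exact one_ne_zero h3
      · refine IsHomogeneous.sub (isHomogeneous_X _ _) ?_
        have := (isHomogeneous_C (Fin 3) c).mul (isHomogeneous_X k j0)
        simpa using this
      · rw [map_sub, map_mul, aeval_X, aeval_X, aeval_C, hc, div_mul_cancel₀ _ hj0, sub_self]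
  · intro hΨ hex
    obtain ⟨_, j, hj, _⟩ := id hex
    have h1 := (hb hΨ hex j hj).1
    refine ⟨h1, fun j0 hj0 => ?_⟩
    rw [hfun j0]
    have h2 := (hb hΨ hex j0 hj0).2
    have hB0 : (0 : ℤ) ≤ B := Int.natCast_nonneg _
    nlinarith

end Pool.Agent.H30.ND
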