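import Pool.Agent.H92.ND.TargetsB

set_option autoImplicit false

namespace Pool.Agent.H30.ND

open MvPolynomial SC Pool.Agent.H27.LV Pool.Agent.H84.SM Pool.Agent.H84.ND Pool.Agent.H92.ND

/-- scaling of the variables `y` -/
lemma aeval_scale {k L : Type} [Field k] [CommRing L] [Algebra k L] (x W : Fin 3 → L) (c : L)
    (i : ℕ) (b : A2 k) (hb : IsWeightedHomogeneous wy b i) :
    aeval (Sum.elim x (fun j => c * W j)) b = c ^ i * aeval (Sum.elim x W) b := by
  classical
  rw [aeval_def, aeval_def, eval₂_eq, eval₂_eq, Finset.mul_sum]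
  refine Finset.sum_congr rfl fun m hm => ?_
  have h1 : ∑ v ∈ m.support, m v * wy v = i := by
    have h := hb (mem_support_iff.1 hm)
    rw [Finsupp.weight_apply, Finsupp.sum] at h
    simpa using h
  have h2 : ∀ v, (Sum.elim x (fun j => c * W j) v) ^ m v =
      c ^ (m v * wy v) * (Sum.elim x W v) ^ m v := by
    rintro (v | v)
    · simp [wy]
    · simp [wy, mul_pow]
  rw [Finset.prod_congr rfl (fun v _ => h2 v), Finset.prod_mul_distrib, Finset.prod_pow_eq_pow_sum,
    h1]
  ring

theorem pf_PSB (hIVA : Pool.Agent.H92.ND.T_IVA) (hRPM : Pool.Agent.H92.ND.T_RPM) :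
    Pool.Agent.H92.ND.T_PSB := by
  intro k _ G d hG s ρ R D hs hD l a i b hb
  obtain ⟨hadd, hC, hX⟩ := hRPM k s
  set c : Fin 3 → A3 k := cr (Pi.single l 1) (g3 G) with hc
  set W : Fin 3 → Polynomial (A3 k) := fun j =>
    Polynomial.C ((d : A3 k) * R j - D * X j) + Polynomial.X * Polynomial.C ((d : A3 k) * c j)
    with hW
  set x : Fin 3 → Polynomial (A3 k) := fun i => Polynomial.C (X i) with hx
  -- the gradient lies in the ideal of the point
  have hg : ∀ j, g3 G j ∈ Is s := fun j =>
    hIVA k s hs.1 (d - 1) _ hG.pderiv (hs.2 j)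
  have hcm : ∀ j, (d : A3 k) * c j ∈ Is s := by
    intro j
    refine Ideal.mul_mem_left _ _ ?_
    rw [hc]
    unfold cr
    exact Ideal.sub_mem _ (Ideal.mul_mem_left _ _ (hg _)) (Ideal.mul_mem_left _ _ (hg _))
  have hWr : ∀ j, RP s (W j) := fun j =>
    (hadd _ _ (hC _) (hX _ (hcm j))).1
  have hRP : ∀ b : A2 k, RP s (aeval (Sum.elim x W) b) := by
    intro b
    induction b using MvPolynomial.induction_on with
    | C e =>
      rw [aeval_C]
      exact hC _
    | add p q hp hq =>
      rw [map_add]
      exact (hadd _ _ hp hq).1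
    | mul_X p v hp =>
      rw [map_mul, aeval_X]
      rcases v with v | v
      · exact (hadd _ _ hp (hC _)).2
      · exact (hadd _ _ hp (hWr v)).2
  refine ⟨aeval (Sum.elim x W) b, ?_, hRP b⟩
  rw [← aeval_scale x W (Polynomial.C G) i b hb.2]
  -- the substitution
  have hpx : ∀ i, ps G l R (xa i) = Polynomial.C (X i) := by
    intro i
    unfold ps xa
    rw [aeval_X]
    rfl
  have hpy : ∀ j, ps G l R (ya j) = Polynomial.C (R j) + Polynomial.X * Polynomial.C (c j) := by
    intro i
    unfold ps ya
    rw [aeval_X]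
    rfl
  have hpa : ∀ f : A3 k, ps G l R (aeval xa f) = Polynomial.C f := by
    intro f
    induction f using MvPolynomial.induction_on with
    | C e =>
      rw [aeval_C]
      rw [AlgHom.commutes]
      rfl
    | add p q hp hq => rw [map_add, map_add, hp, hq, map_add]
    | mul_X p v hp => rw [map_mul, map_mul, hp, aeval_X, hpx, map_mul]
  have hfa : ps G l R (fA G) = Polynomial.C (D * G) := by
    unfold fA dp gr
    rw [map_sum]
    have h1 : ∀ i, ps G l R (aeval xa (pderiv i G) * ya i) =
        Polynomial.C (R i * g3 G i) + Polynomial.X * Polynomial.C (c i * g3 G i) := by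
      intro i
      rw [map_mul, hpa, hpy]
      unfold g3
      rw [map_mul, map_mul]
      ring
    rw [Finset.sum_congr rfl (fun i _ => h1 i), Finset.sum_add_distrib, ← Finset.mul_sum,
      ← map_sum, ← map_sum]
    have h2 : ∑ i, R i * g3 G i = D * G := hD.eq
    have h3 : ∑ i, c i * g3 G i = 0 := by
      rw [hc]
      simp only [Fin.sum_univ_three, cr]
      have e1 : (0 : Fin 3) + 1 = 1 := rfl
      have e2 : (0 : Fin 3) + 2 = 2 := rfl
      have e3 : (1 : Fin 3) + 1 = 2 := rfl
      have e4 : (1 : Fin 3) + 2 = 0 := rfl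
      have e5 : (2 : Fin 3) + 1 = 0 := rfl
      have e6 : (2 : Fin 3) + 2 = 1 := rfl
      simp only [e1, e2, e3, e4, e5, e6]
      ring
    rw [h2, h3]
    simp
  have hcomp : (ps G l R).comp (nv G d) = aeval (Sum.elim x (fun j => Polynomial.C G * W j)) := by
    refine MvPolynomial.algHom_ext (fun v => ?_)
    rw [aeval_X, AlgHom.comp_apply]
    unfold nv
    rw [aeval_X]
    rcases v with v | v
    · exact hpx v
    · simp only [Sum.elim_inr]
      rw [map_sub, map_mul, map_mul, map_mul, hfa, hpx, hpy]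
      unfold gA
      rw [hpa, map_natCast, hW]
      simp only [map_sub, map_mul, map_natCast]
      ring
  have := congrArg (fun φ : A2 k →ₐ[k] Polynomial (A3 k) => φ b) hcomp
  simpa only [AlgHom.comp_apply] using this

end Pool.Agent.H30.ND
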